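import Pool.Agent.P8H18.RR.Stm3

/-! Package MOM2 of project DS: the second moment over the sequences of `RR^n`. -/

set_option autoImplicit false

open Finset Pool.Agent.P8H18.RR Pool.Agent.P8H18.DS

namespace Pool.Agent.P8H28.DS

/-- the quadratic form of a product kernel -/
noncomputable def Fm {n : ℕ} (k : Fin n → Om → Om → ℝ) (g : (Fin n → Om) → ℝ) : ℝ :=
  ∑ w, ∑ w', g w * g w' * ∏ i, k i (w i) (w' i)

theorem fm_fac {n : ℕ} {X : Type} [DecidableEq X] (t : Fin n → Finset X)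
    (h : Fin n → X → Om → ℝ) (g : (Fin n → Om) → ℝ) :
    Fm (fun i a b => ∑ c ∈ t i, h i c a * h i c b) g =
      ∑ c ∈ Fintype.piFinset t, (∑ w, g w * ∏ i, h i (c i) (w i)) ^ 2 := by
  have key : ∀ w w' : Fin n → Om, g w * g w' * ∏ i, ∑ c ∈ t i, h i c (w i) * h i c (w' i) =
      ∑ c ∈ Fintype.piFinset t,
        (g w * ∏ i, h i (c i) (w i)) * (g w' * ∏ i, h i (c i) (w' i)) := by
    intro w w'
    rw [Finset.prod_univ_sum, Finset.mul_sum]
    refine Finset.sum_congr rfl fun c _ => ?_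
    rw [Finset.prod_mul_distrib]; ring
  unfold Fm
  simp_rw [key, sq, Finset.sum_mul_sum]
  rw [Finset.sum_congr rfl (fun w _ => Finset.sum_comm), Finset.sum_comm]

theorem fm_nonneg {n : ℕ} (k : Fin n → Om → Om → ℝ)
    (hk : ∀ i, ∃ h : Om → Om → ℝ, ∀ a b, k i a b = ∑ c, h c a * h c b)
    (g : (Fin n → Om) → ℝ) : 0 ≤ Fm k g := by
  choose h hh using hk
  have : k = fun i a b => ∑ c ∈ (fun _ : Fin n => (univ : Finset Om)) i, h i c a * h i c b := by
    funext i a b; exact hh i a b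
  rw [this, fm_fac]
  exact Finset.sum_nonneg fun _ _ => sq_nonneg _

open scoped MatrixOrder in
theorem psd_fac (k : Om → Om → ℝ) (hs : ∀ a b, k a b = k b a)
    (hp : ∀ F : Om → ℝ, 0 ≤ ∑ a, ∑ b, F a * F b * k a b) :
    ∃ h : Om → Om → ℝ, ∀ a b, k a b = ∑ c, h c a * h c b := by
  have hM : (Matrix.of k).PosSemidef := by
    refine Matrix.PosSemidef.of_dotProduct_mulVec_nonneg ?_ ?_
    · ext a b
      simp [Matrix.conjTranspose_apply, hs a b]
    · intro F
      have := hp F
      simp only [dotProduct, Matrix.mulVec, Matrix.of_apply, Pi.star_apply, star_trivial,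
        Finset.mul_sum]
      refine le_of_le_of_eq this ?_
      refine Finset.sum_congr rfl fun a _ => Finset.sum_congr rfl fun b _ => ?_
      ring
  obtain ⟨B, hB⟩ := CStarAlgebra.nonneg_iff_eq_star_mul_self.mp hM.nonneg
  refine ⟨fun c a => B c a, fun a b => ?_⟩
  have := congrFun (congrFun hB a) b
  simpa [Matrix.mul_apply, Matrix.star_eq_conjTranspose, Matrix.conjTranspose_apply] using this

/-- expansion of a product of sums of kernels -/
theorem fm_add {n : ℕ} (k l : Om → Om → ℝ) (g : (Fin n → Om) → ℝ) :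
    Fm (fun _ : Fin n => fun a b => k a b + l a b) g =
      ∑ S : Finset (Fin n), Fm (fun i => if i ∈ S then k else l) g := by
  have key : ∀ w w' : Fin n → Om, ∏ i, (k (w i) (w' i) + l (w i) (w' i)) =
      ∑ S : Finset (Fin n), ∏ i, (if i ∈ S then k else l) (w i) (w' i) := by
    intro w w'
    rw [Finset.prod_add, Finset.powerset_univ]
    refine Finset.sum_congr rfl fun S _ => ?_
    rw [← Finset.prod_mul_prod_compl S (fun i => (if i ∈ S then k else l) (w i) (w' i))]
    congr 1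
    · exact Finset.prod_congr rfl fun i hi => by rw [if_pos hi]
    · rw [← Finset.compl_eq_univ_sdiff]
      exact Finset.prod_congr rfl fun i hi => by rw [if_neg (Finset.mem_compl.mp hi)]
  unfold Fm
  simp_rw [key, Finset.mul_sum]
  rw [Finset.sum_congr rfl (fun w _ => Finset.sum_comm), Finset.sum_comm]

/-- the kernel `D = 1 - P` -/
noncomputable def Dk (a b : Om) : ℝ := (if b = a then (1 : ℝ) else 0) - 1 / 100

/-- the kernel of `P` -/
noncomputable def Pk (_ _ : Om) : ℝ := 1 / 100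

theorem card_om : Fintype.card Om = 100 := by simp [Om]

theorem Dk_fac : ∃ h : Om → Om → ℝ, ∀ a b, Dk a b = ∑ c, h c a * h c b := by
  refine ⟨fun c a => (if a = c then (1 : ℝ) else 0) - 1 / 100, fun a b => ?_⟩
  unfold Dk
  simp only [sub_mul, mul_sub, Finset.sum_sub_distrib, mul_ite, ite_mul, mul_one, one_mul,
    zero_mul, mul_zero, Finset.sum_ite_eq, Finset.mem_univ, if_true,
    Finset.sum_const, Finset.card_univ, card_om, nsmul_eq_mul]
  by_cases h : b = a
  · simp [h]
  · have h' : ¬ a = b := fun e => h e.symm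
    simp [h, h']

theorem Pk_fac : ∃ h : Om → Om → ℝ, ∀ a b, Pk a b = ∑ c, h c a * h c b := by
  refine ⟨fun _ _ => 1 / 100, fun a b => ?_⟩
  simp only [Pk, Finset.sum_const, Finset.card_univ, card_om, nsmul_eq_mul]
  norm_num

theorem sum_Dk (a : Om) : ∑ b, Dk a b = 0 := by
  simp [Dk, Finset.sum_sub_distrib]

/-- `N_S g = || g_S ||^2` -/
noncomputable def NS {n : ℕ} (g : (Fin n → Om) → ℝ) (S : Finset (Fin n)) : ℝ :=
  Fm (fun i => if i ∈ S then Dk else Pk) g

theorem NS_nonneg {n : ℕ} (g : (Fin n → Om) → ℝ) (S : Finset (Fin n)) : 0 ≤ NS g S := by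
  refine fm_nonneg _ (fun i => ?_) g
  by_cases h : i ∈ S
  · simp only [h, if_true]; exact Dk_fac
  · simp only [h, if_false]; exact Pk_fac

theorem NS_eq {n : ℕ} (g : (Fin n → Om) → ℝ) (S : Finset (Fin n)) :
    NS g S = (1 / 100) ^ (n - S.card) * ∑ w, g w * ∑ w', g w' *
      ∏ i ∈ S, ((if w' i = w i then (1 : ℝ) else 0) - 1 / 100) := by
  unfold NS Fm
  rw [Finset.mul_sum]
  refine Finset.sum_congr rfl fun w _ => ?_
  rw [Finset.mul_sum, Finset.mul_sum]
  refine Finset.sum_congr rfl fun w' _ => ?_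
  rw [← Finset.prod_mul_prod_compl S (fun i => (if i ∈ S then Dk else Pk) (w i) (w' i))]
  rw [Finset.prod_congr rfl (g := fun i => ((if w' i = w i then (1 : ℝ) else 0) - 1 / 100))
    (fun i hi => by rw [if_pos hi]; rfl)]
  rw [Finset.prod_congr (s₁ := Sᶜ) rfl (g := fun _ => (1 / 100 : ℝ))
    (fun i hi => by rw [if_neg (Finset.mem_compl.mp hi)]; rfl)]
  rw [Finset.prod_const, Finset.card_compl, Fintype.card_fin]
  ring

/-- the Parseval formula -/
theorem NS_sum {n : ℕ} (g : (Fin n → Om) → ℝ) : ∑ S : Finset (Fin n), NS g S = ∑ w, g w ^ 2 := by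
  unfold NS
  rw [← fm_add Dk Pk g]
  unfold Fm
  refine Finset.sum_congr rfl fun w _ => ?_
  rw [Finset.sum_eq_single w]
  · rw [Finset.prod_eq_one]
    · ring
    · intro i _; simp [Dk, Pk]
  · intro w' _ hw
    obtain ⟨i, hi⟩ : ∃ i, w' i ≠ w i := by
      by_contra h
      push Not at h
      exact hw (funext h)
    rw [Finset.prod_eq_zero (Finset.mem_univ i), mul_zero]
    simp [Dk, Pk, hi]
  · intro h; exact absurd (Finset.mem_univ _) h

/-- scaling -/
theorem fm_lam {n : ℕ} (lam : ℝ) (g : (Fin n → Om) → ℝ) :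
    Fm (fun _ : Fin n => fun a b => lam * Dk a b + Pk a b) g =
      ∑ S : Finset (Fin n), lam ^ S.card * NS g S := by
  rw [fm_add (fun a b => lam * Dk a b) Pk g]
  refine Finset.sum_congr rfl fun S _ => ?_
  unfold NS Fm
  rw [Finset.mul_sum]
  refine Finset.sum_congr rfl fun w _ => ?_
  rw [Finset.mul_sum]
  refine Finset.sum_congr rfl fun w' _ => ?_
  have h1 : ∏ i, (if i ∈ S then (fun a b => lam * Dk a b) else Pk) (w i) (w' i) =
      ∏ i, ((if i ∈ S then lam else 1) * (if i ∈ S then Dk else Pk) (w i) (w' i)) := by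
    refine Finset.prod_congr rfl fun i _ => ?_
    by_cases hi : i ∈ S <;> simp [hi]
  rw [h1, Finset.prod_mul_distrib, Finset.prod_ite_mem, Finset.univ_inter, Finset.prod_const]
  ring

theorem fm_smul {n : ℕ} (c : ℝ) (k : Om → Om → ℝ) (g : (Fin n → Om) → ℝ) :
    Fm (fun _ : Fin n => fun a b => c * k a b) g = c ^ n * Fm (fun _ : Fin n => k) g := by
  unfold Fm
  rw [Finset.mul_sum]
  refine Finset.sum_congr rfl fun w _ => ?_
  rw [Finset.mul_sum]
  refine Finset.sum_congr rfl fun w' _ => ?_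
  rw [Finset.prod_mul_distrib, Finset.prod_const, Finset.card_univ, Fintype.card_fin]
  ring

/-- the kernel of `T^* T` -/
noncomputable def Ak (RR : Finset (Finset Om)) (a b : Om) : ℝ :=
  ∑ R ∈ RR, (if a ∈ R then (1 : ℝ) else 0) * (if b ∈ R then (1 : ℝ) else 0)

theorem qform {n : ℕ} (RR : Finset (Finset Om)) (g : (Fin n → Om) → ℝ) :
    ∑ r ∈ Fintype.piFinset (fun _ : Fin n => RR), (∑ w ∈ Fintype.piFinset r, g w) ^ 2 =
      Fm (fun _ : Fin n => Ak RR) g := by
  have := fm_fac (n := n) (fun _ => RR)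
    (fun _ (R : Finset Om) (a : Om) => if a ∈ R then (1 : ℝ) else 0) g
  refine Eq.trans ?_ this.symm
  refine Finset.sum_congr rfl fun r _ => ?_
  congr 1
  simp_rw [Fintype.prod_boole, mul_ite, mul_one, mul_zero]
  rw [← Finset.sum_filter]
  refine Finset.sum_congr ?_ fun _ _ => rfl
  ext w
  simp [Fintype.mem_piFinset]

theorem form_Ak (RR : Finset (Finset Om)) (F : Om → ℝ) :
    ∑ a, ∑ b, F a * F b * Ak RR a b = ∑ R ∈ RR, (∑ w ∈ R, F w) ^ 2 := by
  unfold Ak
  simp_rw [Finset.mul_sum]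
  rw [Finset.sum_congr rfl (fun w _ => Finset.sum_comm), Finset.sum_comm]
  refine Finset.sum_congr rfl fun R _ => ?_
  rw [sq, Finset.sum_mul_sum]
  rw [← Finset.sum_filter_add_sum_filter_not univ (fun a => a ∈ R)]
  have h0 : ∑ a ∈ univ.filter (fun a => a ∉ R), ∑ b, F a * F b *
      ((if a ∈ R then (1 : ℝ) else 0) * (if b ∈ R then (1 : ℝ) else 0)) = 0 := by
    refine Finset.sum_eq_zero fun a ha => Finset.sum_eq_zero fun b _ => ?_
    simp [(Finset.mem_filter.mp ha).2]
  rw [h0, add_zero, Finset.filter_mem_eq_inter, Finset.univ_inter]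
  refine Finset.sum_congr rfl fun a ha => ?_
  rw [← Finset.sum_filter_add_sum_filter_not univ (fun b => b ∈ R)]
  have h1 : ∑ b ∈ univ.filter (fun b => b ∉ R), F a * F b *
      ((if a ∈ R then (1 : ℝ) else 0) * (if b ∈ R then (1 : ℝ) else 0)) = 0 := by
    refine Finset.sum_eq_zero fun b hb => ?_
    simp [(Finset.mem_filter.mp hb).2]
  rw [h1, add_zero, Finset.filter_mem_eq_inter, Finset.univ_inter]
  refine Finset.sum_congr rfl fun b hb => ?_
  simp [ha, hb]

theorem form_Dk (F : Om → ℝ) :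
    ∑ a, ∑ b, F a * F b * Dk a b = ∑ a, F a ^ 2 - (∑ a, F a) ^ 2 / 100 := by
  have h1 : ∀ a, ∑ b, F a * F b * Dk a b = F a ^ 2 - F a * (∑ b, F b) / 100 := by
    intro a
    unfold Dk
    simp only [mul_sub, Finset.sum_sub_distrib, mul_ite, mul_one, mul_zero,
      Finset.sum_ite_eq', Finset.mem_univ, if_true]
    rw [← Finset.sum_mul, ← Finset.mul_sum]
    ring
  simp_rw [h1]
  rw [Finset.sum_sub_distrib, ← Finset.sum_div, ← Finset.sum_mul]
  ring

theorem form_Pk (F : Om → ℝ) :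
    ∑ a, ∑ b, F a * F b * Pk a b = (∑ a, F a) ^ 2 / 100 := by
  unfold Pk
  simp_rw [← Finset.sum_mul, ← Finset.mul_sum]
  rw [← Finset.sum_mul]
  ring

theorem gap_form {s : ℕ} {lam : ℝ} {RR : Finset (Finset Om)} (hG : Gap s lam RR) (F : Om → ℝ) :
    ∑ R ∈ RR, (∑ w ∈ R, F w) ^ 2 ≤ (s : ℝ) ^ 2 / 100 * RR.card *
      (lam * (∑ a, F a ^ 2 - (∑ a, F a) ^ 2 / 100) + (∑ a, F a) ^ 2 / 100) := by
  set m : ℝ := (∑ a, F a) / 100 with hm
  have hF : ∑ a, F a = 100 * m := by rw [hm]; ring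
  have h0 : ∑ w, (F w - m) = 0 := by
    rw [Finset.sum_sub_distrib, Finset.sum_const, Finset.card_univ, card_om, nsmul_eq_mul, hF]
    norm_num
  have hg := hG.gap (fun w => F w - m) h0
  have h1 : ∑ w, (F w - m) ^ 2 = ∑ w, F w ^ 2 - 100 * m ^ 2 := by
    have : ∀ w, (F w - m) ^ 2 = F w ^ 2 - 2 * m * F w + m ^ 2 := fun w => by ring
    simp_rw [this]
    rw [Finset.sum_add_distrib, Finset.sum_sub_distrib, ← Finset.mul_sum, hF, Finset.sum_const,
      Finset.card_univ, card_om, nsmul_eq_mul]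
    push_cast; ring
  have h2 : ∑ R ∈ RR, ∑ w ∈ R, F w = s * RR.card * m := by
    have : ∀ R ∈ RR, ∑ w ∈ R, F w = ∑ w, (if w ∈ R then F w else 0) := by
      intro R _
      rw [← Finset.sum_filter, Finset.filter_mem_eq_inter, Finset.univ_inter]
    rw [Finset.sum_congr rfl this, Finset.sum_comm]
    have h3 : ∀ w, ∑ R ∈ RR, (if w ∈ R then F w else 0) = s * RR.card / 100 * F w := by
      intro w
      rw [← Finset.sum_filter, Finset.sum_const, nsmul_eq_mul]
      have := hG.one w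
      have h4 : (100 : ℝ) * (RR.filter (fun R => w ∈ R)).card = s * RR.card := by exact_mod_cast this
      rw [← h4]; ring
    simp_rw [h3]
    rw [← Finset.mul_sum, hF]; ring
  have h5 : ∑ R ∈ RR, (∑ w ∈ R, (F w - m)) ^ 2 =
      ∑ R ∈ RR, (∑ w ∈ R, F w) ^ 2 - RR.card * s ^ 2 * m ^ 2 := by
    have : ∀ R ∈ RR, (∑ w ∈ R, (F w - m)) ^ 2 =
        (∑ w ∈ R, F w) ^ 2 - 2 * s * m * (∑ w ∈ R, F w) + s ^ 2 * m ^ 2 := by
      intro R hR
      rw [Finset.sum_sub_distrib, Finset.sum_const, hG.card R hR, nsmul_eq_mul]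
      ring
    rw [Finset.sum_congr rfl this, Finset.sum_add_distrib, Finset.sum_sub_distrib,
      ← Finset.mul_sum, h2, Finset.sum_const, nsmul_eq_mul]
    ring
  rw [h5, h1] at hg
  rw [hF]
  nlinarith [hg]

theorem rest_fac {s : ℕ} {lam : ℝ} {RR : Finset (Finset Om)} (hG : Gap s lam RR) :
    ∃ h : Om → Om → ℝ, ∀ a b,
      (s : ℝ) ^ 2 / 100 * RR.card * (lam * Dk a b + Pk a b) - Ak RR a b = ∑ c, h c a * h c b := by
  refine psd_fac (fun a b =>
    (s : ℝ) ^ 2 / 100 * RR.card * (lam * Dk a b + Pk a b) - Ak RR a b) ?_ ?_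
  · intro a b
    have h1 : Dk a b = Dk b a := by
      unfold Dk
      simp only [eq_comm]
    have h2 : Ak RR a b = Ak RR b a := by
      unfold Ak
      exact Finset.sum_congr rfl fun _ _ => mul_comm _ _
    have h3 : Pk a b = Pk b a := rfl
    simp only [h1, h2, h3]
  · intro F
    have h1 : ∑ a, ∑ b, F a * F b *
        ((s : ℝ) ^ 2 / 100 * RR.card * (lam * Dk a b + Pk a b) - Ak RR a b) =
        (s : ℝ) ^ 2 / 100 * RR.card * (lam * (∑ a, ∑ b, F a * F b * Dk a b) +
          ∑ a, ∑ b, F a * F b * Pk a b) - ∑ a, ∑ b, F a * F b * Ak RR a b := by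
      simp only [Finset.mul_sum, ← Finset.sum_add_distrib, ← Finset.sum_sub_distrib]
      refine Finset.sum_congr rfl fun a _ => Finset.sum_congr rfl fun b _ => ?_
      ring
    rw [h1, form_Ak, form_Dk, form_Pk]
    linarith [gap_form hG F]

theorem Ak_fac (RR : Finset (Finset Om)) :
    ∃ h : Om → Om → ℝ, ∀ a b, Ak RR a b = ∑ c, h c a * h c b := by
  refine psd_fac (Ak RR) ?_ ?_
  · intro a b
    unfold Ak
    exact Finset.sum_congr rfl fun _ _ => mul_comm _ _
  · intro F
    rw [form_Ak]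
    exact Finset.sum_nonneg fun _ _ => sq_nonneg _

theorem fm_le {n s : ℕ} {lam : ℝ} {RR : Finset (Finset Om)} (hG : Gap s lam RR)
    (g : (Fin n → Om) → ℝ) :
    Fm (fun _ : Fin n => Ak RR) g ≤
      ((s : ℝ) ^ 2 / 100 * RR.card) ^ n * ∑ S : Finset (Fin n), lam ^ S.card * NS g S := by
  rw [← fm_lam, ← fm_smul]
  have h1 : Fm (fun _ : Fin n => fun a b =>
      (s : ℝ) ^ 2 / 100 * RR.card * (lam * Dk a b + Pk a b)) g =
      Fm (fun _ : Fin n => fun a b => Ak RR a b +
        ((s : ℝ) ^ 2 / 100 * RR.card * (lam * Dk a b + Pk a b) - Ak RR a b)) g := by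
    congr 1
    funext _ a b
    ring
  rw [h1, fm_add (Ak RR) (fun a b =>
    (s : ℝ) ^ 2 / 100 * RR.card * (lam * Dk a b + Pk a b) - Ak RR a b) g]
  have h2 : Fm (fun _ : Fin n => Ak RR) g = Fm (fun i : Fin n =>
      if i ∈ (univ : Finset (Fin n)) then Ak RR else (fun a b =>
        (s : ℝ) ^ 2 / 100 * RR.card * (lam * Dk a b + Pk a b) - Ak RR a b)) g := by
    simp
  rw [h2]
  refine Finset.single_le_sum (f := fun S : Finset (Fin n) => Fm (fun i : Fin n =>
      if i ∈ S then Ak RR else (fun a b =>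
        (s : ℝ) ^ 2 / 100 * RR.card * (lam * Dk a b + Pk a b) - Ak RR a b)) g)
    (fun S _ => ?_) (Finset.mem_univ _)
  refine fm_nonneg _ (fun i => ?_) g
  by_cases h : i ∈ S
  · simp only [h, if_true]; exact Ak_fac RR
  · simp only [h, if_false]; exact rest_fac hG

theorem card_small (n K : ℕ) :
    ((univ : Finset (Finset (Fin n))).filter (fun S => S.card ≤ K)).card ≤ (n + 1) ^ K := by
  have h1 : (univ : Finset (Finset (Fin n))).filter (fun S => S.card ≤ K) ⊆
      (range (K + 1)).biUnion (fun j => powersetCard j (univ : Finset (Fin n))) := by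
    intro S hS
    have := (Finset.mem_filter.mp hS).2
    refine Finset.mem_biUnion.mpr ⟨S.card, Finset.mem_range.mpr (by omega), ?_⟩
    exact Finset.mem_powersetCard.mpr ⟨Finset.subset_univ _, rfl⟩
  refine (Finset.card_le_card h1).trans (Finset.card_biUnion_le.trans ?_)
  rw [add_pow]
  refine Finset.sum_le_sum fun j hj => ?_
  rw [Finset.card_powersetCard, Finset.card_univ, Fintype.card_fin, one_pow, mul_one]
  have hj' : j ≤ K := by have := Finset.mem_range.mp hj; omega
  calc n.choose j ≤ n ^ j := Nat.choose_le_pow n j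
    _ = n ^ j * 1 := (mul_one _).symm
    _ ≤ n ^ j * (K.choose j) := Nat.mul_le_mul_left _ (Nat.choose_pos hj')

theorem prod_zero {n : ℕ} (S : Finset (Fin n)) (hS : S.Nonempty) (a : Fin n → Om) :
    ∑ w : Fin n → Om, ∏ i ∈ S, ((if w i = a i then (1 : ℝ) else 0) - 1 / 100) = 0 := by
  obtain ⟨j, hj⟩ := hS
  have h1 : ∀ w : Fin n → Om, ∏ i ∈ S, ((if w i = a i then (1 : ℝ) else 0) - 1 / 100) =
      ∏ i, (fun (i : Fin n) (b : Om) => if i ∈ S then (if b = a i then (1 : ℝ) else 0) - 1 / 100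
        else 1) i (w i) := by
    intro w
    simp only []
    rw [Finset.prod_ite_mem, Finset.univ_inter]
  have h2 := Finset.prod_univ_sum (fun _ : Fin n => (univ : Finset Om))
    (fun (i : Fin n) (b : Om) => if i ∈ S then (if b = a i then (1 : ℝ) else 0) - 1 / 100 else 1)
  rw [Fintype.piFinset_univ] at h2
  rw [Finset.sum_congr rfl fun w _ => h1 w, ← h2]
  refine Finset.prod_eq_zero (Finset.mem_univ j) ?_
  simp only [hj, if_true]
  simp [Finset.sum_sub_distrib]

theorem mom2 : S_MOM2 := by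
  intro n s lam RR hl0 hl1 hG g K B W hB hW hgB hgW
  have hcard : ((univ : Finset (Fin n → Om)).card : ℝ) = 100 ^ n := by
    rw [Finset.card_univ, Fintype.card_fun, card_om, Fintype.card_fin]; push_cast; rfl
  have h100 : (0 : ℝ) < 100 ^ n := by positivity
  set m : ℝ := (∑ w, g w) / 100 ^ n with hm
  have hsg : ∑ w, g w = 100 ^ n * m := by rw [hm]; field_simp
  set g' : (Fin n → Om) → ℝ := fun w => g w - m with hg'
  have hsum : ∑ w, g' w = 0 := by
    rw [hg', Finset.sum_sub_distrib, Finset.sum_const, nsmul_eq_mul, hcard, hsg]; ring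
  have hL : ∀ r ∈ Fintype.piFinset (fun _ : Fin n => RR),
      ((∑ w ∈ Fintype.piFinset r, g w) - ((s : ℝ) / 100) ^ n * ∑ w, g w) ^ 2 =
        (∑ w ∈ Fintype.piFinset r, g' w) ^ 2 := by
    intro r hr
    have h1 : ∏ i, (r i).card = s ^ n := by
      rw [Finset.prod_congr rfl (fun i _ => hG.card _ (Fintype.mem_piFinset.mp hr i)),
        Finset.prod_const, Finset.card_univ, Fintype.card_fin]
    rw [hg', Finset.sum_sub_distrib, Finset.sum_const, Fintype.card_piFinset, h1, nsmul_eq_mul,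
      hsg, div_pow]
    push_cast
    congr 1
    field_simp
  rw [Finset.sum_congr rfl hL, qform]
  have hmB : |m| ≤ B := by
    rw [hm, abs_div, abs_of_pos h100, div_le_iff₀ h100]
    refine (Finset.abs_sum_le_sum_abs _ _).trans ?_
    refine (Finset.sum_le_sum fun w _ => hgB w).trans ?_
    rw [Finset.sum_const, nsmul_eq_mul, hcard]
    exact le_of_eq (mul_comm _ _)
  have hg'B : ∀ w, |g' w| ≤ 2 * B := by
    intro w
    have := abs_sub (g w) m
    calc |g' w| ≤ |g w| + |m| := abs_sub _ _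
      _ ≤ 2 * B := by linarith [hgB w]
  have hsq : ∑ w, g' w ^ 2 ≤ 100 ^ n * B ^ 2 := by
    have h1 : ∑ w, g' w ^ 2 = ∑ w, g w ^ 2 - 100 ^ n * m ^ 2 := by
      have : ∀ w, g' w ^ 2 = g w ^ 2 - 2 * m * g w + m ^ 2 := fun w => by
        simp only [hg']; ring
      simp_rw [this]
      rw [Finset.sum_add_distrib, Finset.sum_sub_distrib, ← Finset.mul_sum, hsg, Finset.sum_const,
        nsmul_eq_mul, hcard]
      ring
    have h2 : ∑ w, g w ^ 2 ≤ 100 ^ n * B ^ 2 := by
      refine (Finset.sum_le_sum (g := fun _ => B ^ 2) fun w _ => ?_).trans ?_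
      · rw [← sq_abs]
        exact pow_le_pow_left₀ (abs_nonneg _) (hgB w) 2
      · rw [Finset.sum_const, nsmul_eq_mul, hcard]
    have h3 : 0 ≤ 100 ^ n * m ^ 2 := by positivity
    linarith
  have hNS0 : NS g' ∅ = 0 := by
    rw [NS_eq]
    simp [hsum]
  have hNS1 : ∀ S : Finset (Fin n), S.Nonempty → S.card ≤ K → NS g' S ≤ B * W * 10000 ^ K := by
    intro S hS hSK
    have hSn : S.card ≤ n := by simpa using Finset.card_le_univ S
    have h1 : ∀ a : Fin n → Om,
        |∑ w, g' w * ∏ i ∈ S, ((if w i = a i then (1 : ℝ) else 0) - 1 / 100)| ≤ W := by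
      intro a
      have : ∑ w, g' w * ∏ i ∈ S, ((if w i = a i then (1 : ℝ) else 0) - 1 / 100) =
          ∑ w, g w * ∏ i ∈ S, ((if w i = a i then (1 : ℝ) else 0) - 1 / 100) := by
        simp only [hg', sub_mul, Finset.sum_sub_distrib]
        rw [← Finset.mul_sum, prod_zero S hS a, mul_zero, sub_zero]
      rw [this]
      exact hgW S hS hSK a
    have h2 : ∑ w, g' w * ∑ w', g' w' *
        ∏ i ∈ S, ((if w' i = w i then (1 : ℝ) else 0) - 1 / 100) ≤ 100 ^ n * (2 * B * W) := by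
      refine (Finset.sum_le_sum (g := fun _ => 2 * B * W) fun w _ => ?_).trans ?_
      · refine (le_abs_self _).trans ?_
        rw [abs_mul]
        exact mul_le_mul (hg'B w) (h1 w) (abs_nonneg _) (by positivity)
      · rw [Finset.sum_const, nsmul_eq_mul, hcard]
    rw [NS_eq]
    have h3 : (1 / 100 : ℝ) ^ (n - S.card) * 100 ^ n = 100 ^ S.card := by
      have : (100 : ℝ) ^ n = 100 ^ (n - S.card) * 100 ^ S.card := by
        rw [← pow_add]; congr 1; omega
      rw [this, ← mul_assoc, ← mul_pow]; norm_num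
    have h4 : (2 : ℝ) * 100 ^ S.card ≤ 10000 ^ K := by
      have hc : 1 ≤ S.card := hS.card_pos
      have h5 : (10000 : ℝ) ^ S.card ≤ 10000 ^ K := pow_le_pow_right₀ (by norm_num) hSK
      have h6 : (10000 : ℝ) ^ S.card = 100 ^ S.card * 100 ^ S.card := by
        rw [← mul_pow]; norm_num
      have h7 : (2 : ℝ) ≤ 100 ^ S.card := by
        calc (2 : ℝ) ≤ 100 ^ 1 := by norm_num
          _ ≤ 100 ^ S.card := pow_le_pow_right₀ (by norm_num) hc
      have h8 : (0 : ℝ) < 100 ^ S.card := by positivity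
      nlinarith
    calc (1 / 100 : ℝ) ^ (n - S.card) * ∑ w, g' w * ∑ w', g' w' *
          ∏ i ∈ S, ((if w' i = w i then (1 : ℝ) else 0) - 1 / 100)
        ≤ (1 / 100 : ℝ) ^ (n - S.card) * (100 ^ n * (2 * B * W)) :=
          mul_le_mul_of_nonneg_left h2 (by positivity)
      _ = (2 * 100 ^ S.card) * (B * W) := by rw [← mul_assoc, h3]; ring
      _ ≤ 10000 ^ K * (B * W) := mul_le_mul_of_nonneg_right h4 (by positivity)
      _ = B * W * 10000 ^ K := mul_comm _ _
  have hbw : 0 ≤ B * W * 10000 ^ K := by positivity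
  have hS : ∀ S : Finset (Fin n), lam ^ S.card * NS g' S ≤
      lam ^ K * NS g' S + (if S.card ≤ K then B * W * 10000 ^ K else 0) := by
    intro S
    have hn := NS_nonneg g' S
    have hlK : 0 ≤ lam ^ K := pow_nonneg hl0 _
    by_cases h : S.card ≤ K
    · rw [if_pos h]
      rcases S.eq_empty_or_nonempty with h0 | h0
      · rw [h0, hNS0, mul_zero, mul_zero, zero_add]; exact hbw
      · have h1 : lam ^ S.card ≤ 1 := pow_le_one₀ hl0 hl1
        have h2 := hNS1 S h0 h
        have h3 : 0 ≤ lam ^ K * NS g' S := mul_nonneg hlK hn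
        have h4 : lam ^ S.card * NS g' S ≤ 1 * NS g' S := mul_le_mul_of_nonneg_right h1 hn
        linarith
    · rw [if_neg h, add_zero]
      exact mul_le_mul_of_nonneg_right (pow_le_pow_of_le_one hl0 hl1 (by omega)) hn
  have htot : ∑ S : Finset (Fin n), lam ^ S.card * NS g' S ≤
      lam ^ K * (100 ^ n * B ^ 2) + (n + 1) ^ K * (B * W * 10000 ^ K) := by
    refine (Finset.sum_le_sum fun S _ => hS S).trans ?_
    rw [Finset.sum_add_distrib, ← Finset.mul_sum, NS_sum, ← Finset.sum_filter, Finset.sum_const,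
      nsmul_eq_mul]
    refine add_le_add (mul_le_mul_of_nonneg_left hsq (pow_nonneg hl0 _))
      (mul_le_mul_of_nonneg_right ?_ hbw)
    exact_mod_cast card_small n K
  have hk : (0 : ℝ) ≤ ((s : ℝ) ^ 2 / 100 * RR.card) ^ n :=
    pow_nonneg (mul_nonneg (div_nonneg (sq_nonneg _) (by norm_num)) (Nat.cast_nonneg _)) _
  refine (fm_le hG g').trans ((mul_le_mul_of_nonneg_left htot hk).trans (le_of_eq ?_))
  rw [mul_pow, mul_pow ((n : ℝ) + 1), div_pow, ← pow_mul]
  have hinv : ((100 : ℝ) ^ n)⁻¹ * 100 ^ n = 1 := inv_mul_cancel₀ h100.ne'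
  rw [div_eq_mul_inv]
  linear_combination ((RR.card : ℝ) ^ n * lam ^ K * (s : ℝ) ^ (2 * n) * B ^ 2) * hinv

end Pool.Agent.P8H28.DS
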